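import Pool.Agent.BE01.Stmts

/-!
# Squad BEF (MP_be01ff_an): the final state theorem for eigenvalues of any multiplicity. Definitions.
-/

namespace Pool.Agent.BEF

open Set Filter Topology MeasureTheory
open scoped InnerProductSpace
open Pool.Agent.BE01

noncomputable section

/-! ## Polynomials in `z` with trigonometric polynomials in `ψ` as coefficients -/

section gra

variable (κ : Type) [Fintype κ] (M : Type) [NormedAddCommGroup M] [NormedSpace ℝ M]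

/-- The functions of `(ψ, z)`, homogeneous polynomials of degree `d` in `z ∈ ℝ^κ`, with coefficients
the trigonometric polynomials with frequencies `j ≤ d`, `j = d` modulo 2. -/
def HG (d : ℕ) : Submodule ℝ (ℝ → (κ → ℝ) → M) :=
  Submodule.span ℝ {P | ∃ (f : MvPolynomial κ ℝ) (j i : ℕ) (m : M), f.IsHomogeneous d ∧
    j + 2 * i = d ∧ ((P = fun ψ z => (MvPolynomial.eval z f * Real.cos (j * ψ)) • m) ∨
      P = fun ψ z => (MvPolynomial.eval z f * Real.sin (j * ψ)) • m)}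

/-- Finite sums of such functions of the degrees `d, d + 2, d + 4, …`. -/
def GE (d : ℕ) : Submodule ℝ (ℝ → (κ → ℝ) → M) := ⨆ k : ℕ, HG κ M (d + 2 * k)

/-- Finite sums of homogeneous polynomials of the degrees `d, d + 2, d + 4, …`. -/
def GP (d : ℕ) : Submodule ℝ (MvPolynomial κ ℝ) :=
  ⨆ k : ℕ, MvPolynomial.homogeneousSubmodule κ ℝ (d + 2 * k)

variable {κ M}

/-- The value of a polynomial vector field. -/
def vf (F : κ → MvPolynomial κ ℝ) (z : κ → ℝ) : κ → ℝ := fun i => MvPolynomial.eval z (F i)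

/-- The derivative with respect to `ψ`. -/
def dp (P : ℝ → (κ → ℝ) → M) (ψ : ℝ) (z : κ → ℝ) : M := deriv (fun s => P s z) ψ

/-- The derivative along the vector field `F` in the variable `z`. -/
def dv (F : κ → MvPolynomial κ ℝ) (P : ℝ → (κ → ℝ) → M) (ψ : ℝ) (z : κ → ℝ) : M :=
  fderiv ℝ (P ψ) z (vf F z)

/-- The operator `D`: if `ψ' = ω` and `z' = F(z)` then `P(ψ, z)' = (D P)(ψ, z)`. -/
def DF (ω : ℝ) (F : κ → MvPolynomial κ ℝ) (P : ℝ → (κ → ℝ) → M) (ψ : ℝ) (z : κ → ℝ) : M :=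
  ω • dp P ψ z + dv F P ψ z

end gra

/-! ## The approximate solution -/

section apx

variable {X Y H : Type} [NormedCommRing X] [NormedAlgebra ℝ X] [NormedAddCommGroup Y]
  [NormedSpace ℝ Y] [NormedAddCommGroup H] [InnerProductSpace ℝ H] {m : ℕ}

/-- The wave `Σ (x_i cos ψ + y_i sin ψ) φ_i`, `z = (x, y)`. -/
def qw (φ : Fin m → H) (ψ : ℝ) (z : Fin m ⊕ Fin m → ℝ) : H :=
  ∑ i, (z (Sum.inl i) * Real.cos ψ + z (Sum.inr i) * Real.sin ψ) • φ i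

/-- Its derivative `Σ (- x_i sin ψ + y_i cos ψ) φ_i`. -/
def pw (φ : Fin m → H) (ψ : ℝ) (z : Fin m ⊕ Fin m → ℝ) : H :=
  ∑ i, (z (Sum.inr i) * Real.cos ψ - z (Sum.inl i) * Real.sin ψ) • φ i

/-- Solvability of the equations `(L - n² ω²) u = F` for odd `3 ≤ n ≤ M`, and for `n = 1` under
the condition that `F` is orthogonal to the `φ i`. -/
structure Slm (S : H →L[ℝ] H) (ω : ℝ) (φ : Fin m → H) (M : ℕ) : Prop where
  one : ∀ F : H, (∀ i, ⟪F, φ i⟫_ℝ = 0) → ∃ q : H, q - (ω ^ 2) • S q = F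
  odd : ∀ n : ℕ, Odd n → 3 ≤ n → n ≤ M → ∀ F : H, ∃ q : H, q - ((n : ℝ) ^ 2 * ω ^ 2) • S q = F

/-- The data of an approximate solution `u = P(ψ, z)`, `P = S q`, with a residual of degree `d`. -/
structure Apz {A : Alg X Y H} (W : Wv A) (p : ℕ) (a0 ω : ℝ) (φ : Fin m → H) (d : ℕ)
    (F : Fin m ⊕ Fin m → MvPolynomial (Fin m ⊕ Fin m) ℝ)
    (P : ℝ → (Fin m ⊕ Fin m → ℝ) → X) (q R : ℝ → (Fin m ⊕ Fin m → ℝ) → H) : Prop where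
  F_mem : ∀ i, F i ∈ GP (Fin m ⊕ Fin m) (2 * p + 1)
  P_eq : ∀ ψ z, P ψ z = W.SX (q ψ z)
  q_eq : ∃ q' ∈ GE (Fin m ⊕ Fin m) H 3, ∀ ψ z, q ψ z = (ω ^ 2) • qw φ ψ z + q' ψ z
  R_mem : R ∈ GE (Fin m ⊕ Fin m) H d
  res : ∀ ψ z, A.e (DF ω F (DF ω F P) ψ z) + q ψ z + a0 • A.e (DF ω F P ψ z ^ (2 * p + 1)) =
    R ψ z

/-- The eigenvectors: `φ` is orthonormal and `ω² S φ_i = φ_i`. -/
def Evc {A : Alg X Y H} (W : Wv A) (ω : ℝ) (φ : Fin m → H) : Prop :=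
  Orthonormal ℝ φ ∧ ∀ i, (ω ^ 2) • W.S (φ i) = φ i

/-- `∫ x^(2p+2) > 0` for `x ≠ 0`. -/
def Psv (A : Alg X Y H) (p : ℕ) : Prop :=
  ∀ x : X, A.e x ≠ 0 → 0 < ⟪A.e (x ^ (2 * p + 1)), A.e x⟫_ℝ

/-- The approximate solution as a function of time (conclusion of the module ASM of squad BE01,
with a general exponent `k`). -/
def Apt {A : Alg X Y H} (W : Wv A) (p : ℕ) (a0 : ℝ) : Prop :=
  ∃ (t1 c1 k M N1 c C : ℝ) (w0 w1 w2 : ℝ → X) (h g : ℝ → H) (r : Fin 3 → ℝ → H),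
    1 ≤ t1 ∧ 0 ≤ c1 ∧ 2 < k ∧ c1 < k - 1 ∧ 0 < c ∧
    (∀ t > t1, HasDerivAt w0 (w1 t) t) ∧ (∀ t > t1, HasDerivAt w1 (w2 t) t) ∧
    ContinuousOn w2 (Ioi t1) ∧ (∀ t > t1, ‖w0 t‖ + ‖w1 t‖ + ‖w2 t‖ ≤ M) ∧
    (∀ t > t1, a0 * gsz (2 * p + 1) (w0 t) (w1 t) (w2 t) ≤ c1 / t) ∧
    Jet t1 r ∧ Bd t1 k N1 r ∧
    ContinuousOn g (Ioi t1) ∧ (∀ t > t1, w0 t = W.SX (h t)) ∧
    (∀ t > t1, HasDerivAt (fun s => W.S (g s)) (A.e (w0 t)) t) ∧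
    (∀ t > t1, r 0 t = A.e (w1 t) + g t + a0 • A.e (w0 t ^ (2 * p + 1))) ∧
    ∀ t > t1, c * t ^ (- (1 / (p : ℝ))) ≤ ‖A.e (w0 t)‖ ^ 2 + ‖W.R (g t)‖ ^ 2 ∧
      ‖A.e (w0 t)‖ ^ 2 + ‖W.R (g t)‖ ^ 2 ≤ C * t ^ (- (1 / (p : ℝ)))

/-- The solution (conclusion of the module ABS of squad BE01). -/
def Slt {A : Alg X Y H} (W : Wv A) (p : ℕ) (a0 : ℝ) : Prop :=
  ∃ (t0 c C : ℝ) (u : ℝ → H) (x : ℝ → X) (k w h : ℝ → H), 1 ≤ t0 ∧ 0 < c ∧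
    ContinuousOn w (Ioi t0) ∧ ContinuousOn h (Ioi t0) ∧
    ∀ t > t0, HasDerivAt u (A.e (x t)) t ∧ HasDerivAt (fun s => A.e (x s)) (w t) t ∧
      x t = W.SX (k t) ∧ u t = W.S (h t) ∧ w t + h t + a0 • A.e (x t ^ (2 * p + 1)) = 0 ∧
      c * t ^ (- (1 / (p : ℝ))) ≤ ‖A.e (x t)‖ ^ 2 + ⟪h t, W.S (h t)⟫_ℝ ∧
      ‖A.e (x t)‖ ^ 2 + ⟪h t, W.S (h t)⟫_ℝ ≤ C * t ^ (- (1 / (p : ℝ)))

end apx

end

end Pool.Agent.BEF
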