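import Pool.Agent.BEF.Defs
import Pool.Agent.BE01.StmtsC

/-!
# Squad BEF (MP_be01ff_an): the final state theorem for eigenvalues of any multiplicity. Statements.

THEOREM. `Ω ⊂ ℝ^d` bounded open, `d = 2, 3`, `α = 2p`, `l` a Dirichlet eigenvalue of ANY
multiplicity. There is `M` such that if `n² l` is not an eigenvalue for odd `3 ≤ n ≤ M` then there is
a solution with `E(t) ∼ t^(-1/p)`. In particular this holds for every `Ω` which has an eigenvalue `l`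
with only finitely many odd `n` such that `n² l` is an eigenvalue (take `n² l`, `n` the largest).

PAPER. `L = -Δ`, `S = L⁻¹`, `l = ω²`, `φ_1, …, φ_m` an orthonormal basis of the eigenspace. Normal
form in the variables `z = (x, y) ∈ ℝ^m × ℝ^m`: `u = P(ψ, z)`, `ψ' = ω`, `z' = F(z)`, `P = P_1 + P_3 +
P_5 + …` odd polynomial in `z`, `P_1 = Σ (x_i cos ψ + y_i sin ψ) φ_i`, `F = F_(2p+1) + F_(2p+3) + …`
polynomial. Equation `D² P + L P + a (D P)^(2p+1) = 0`, `D = ω ∂_ψ + F·∂_z`. In degree `d` (odd) the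
unknowns `P_d = S q_d` and `F_d` must satisfy `2 ω (F_d·∂_z) ∂_ψ P_1 + ω² S ∂_ψ² q_d + q_d = - R_d`
(`R_d` known): the harmonics `3 ≤ j ≤ d` are non resonant, for `j = 1` the component in the
eigenspace is taken by `F_d`. No logarithms, no Hessian. `z·F_(2p+1)(z) = - (a/(2ωπ)) ∫_0^(2π)
⟨(ω ∂_ψ P_1)^(2p+1), ∂_ψ P_1⟩ dψ ≤ - c |z|^(2p+2)`: every small solution of `z' = F(z)` satisfies
`c' ≤ t |z|^(2p) ≤ 2/(p c)`, with a constant `2/(p c)` which does not depend on the order of the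
approximation. The remainder is solved by the module NLP of squad BE01.

All the rows can be started at once: `uses` = hypotheses of your theorem, in this order.
-/

namespace Pool.Agent.BEF

open Set Filter Topology MeasureTheory
open scoped InnerProductSpace ENNReal NNReal
open Pool.Agent.BE01

noncomputable section

/-! ## Part G: the graded spaces `HG κ M d` and `GE κ M d` -/

/-- GPR: products (no hypotheses). For generators: `cos a cos b = (cos (a-b) + cos (a+b))/2`, …;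
if `j + 2i = d`, `j' + 2i' = d'` then `(j+j') + 2(i+i') = d+d'` and, for `j' ≤ j`,
`(j-j') + 2(i+i'+j') = d+d'`; `β (f m) (f' m') = f f' β m m'`, `IsHomogeneous.mul`; the difference of
the frequencies is a natural number up to a sign (`cos` even, `sin` odd). Then two inductions
(`Submodule.span_induction`). For `GE`: `Submodule.iSup_induction'` twice, with the first statement
for `d + 2k` and `d' + 2k'`, `d + 2k + (d' + 2k') = d + d' + 2(k+k')`. -/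
def GprStmt : Prop := ∀ (κ : Type) [Fintype κ] (M₁ M₂ M₃ : Type) [NormedAddCommGroup M₁]
  [NormedSpace ℝ M₁] [NormedAddCommGroup M₂] [NormedSpace ℝ M₂] [NormedAddCommGroup M₃]
  [NormedSpace ℝ M₃] (β : M₁ →L[ℝ] M₂ →L[ℝ] M₃) (d d' : ℕ) (P : ℝ → (κ → ℝ) → M₁)
  (P' : ℝ → (κ → ℝ) → M₂),
  (P ∈ HG κ M₁ d → P' ∈ HG κ M₂ d' → (fun ψ z => β (P ψ z) (P' ψ z)) ∈ HG κ M₃ (d + d')) ∧
  (P ∈ GE κ M₁ d → P' ∈ GE κ M₂ d' → (fun ψ z => β (P ψ z) (P' ψ z)) ∈ GE κ M₃ (d + d'))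

/-- GLI: linear maps, inclusions, decomposition (no hypotheses). The first two: on generators.
`HG d ≤ GE d`: the term `k = 0` of the supremum. `GE (d + 2k) ≤ GE d`: `(d + 2k) + 2k' = d +
2(k+k')`. Decomposition: `GE d ≤ HG d ⊔ GE (d + 2)` (`iSup_le`, the terms `k = 0` and `k = k' + 1`),
`Submodule.mem_sup`. -/
def GliStmt : Prop := ∀ (κ : Type) [Fintype κ] (M M' : Type) [NormedAddCommGroup M]
  [NormedSpace ℝ M] [NormedAddCommGroup M'] [NormedSpace ℝ M'] (T : M →L[ℝ] M') (d : ℕ)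
  (P : ℝ → (κ → ℝ) → M),
  (P ∈ HG κ M d → (fun ψ z => T (P ψ z)) ∈ HG κ M' d) ∧
  (P ∈ GE κ M d → (fun ψ z => T (P ψ z)) ∈ GE κ M' d) ∧
  (P ∈ HG κ M d → P ∈ GE κ M d) ∧
  (∀ k : ℕ, P ∈ GE κ M (d + 2 * k) → P ∈ GE κ M d) ∧
  (P ∈ GE κ M d → ∃ P1 ∈ HG κ M d, ∃ P2 ∈ GE κ M (d + 2), P = P1 + P2)

/-- GDV: derivatives (no hypotheses). Prove first, by induction (`iSup_induction'`,
`span_induction`), the last four properties (smoothness of the generators: `MvPolynomial.eval z f` is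
continuous and differentiable in `z : κ → ℝ` with derivative `v ↦ Σ_i v_i eval z (pderiv i f)`, by
`MvPolynomial.induction_on`), then the additivity of `dp` and `dv`, then the first two. For a
generator of degree `D = d + 2k`: `dp` gives `∓ j`; `dv F` gives `Σ_i F_i ∂_i f`, and for `F_i`
homogeneous of degree `2e + 1 + 2k'` the product `F_i ∂_i f` is homogeneous of degree `D + 2e + 2k'`
(if `D = 0` then `∂_i f = 0`), the frequency `j` is unchanged, `j + 2(i + e + k') = D + 2e + 2k'`. -/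
def GdvStmt : Prop := ∀ (κ : Type) [Fintype κ] (M : Type) [NormedAddCommGroup M]
  [NormedSpace ℝ M] (d : ℕ) (P : ℝ → (κ → ℝ) → M),
  (P ∈ HG κ M d → dp P ∈ HG κ M d) ∧ (P ∈ GE κ M d →
    dp P ∈ GE κ M d ∧
    (∀ (e : ℕ) (F : κ → MvPolynomial κ ℝ), (∀ i, F i ∈ GP κ (2 * e + 1)) →
      dv F P ∈ GE κ M (d + 2 * e)) ∧
    (∀ ψ z, HasDerivAt (fun s => P s z) (dp P ψ z) ψ) ∧
    (∀ ψ z, DifferentiableAt ℝ (P ψ) z) ∧
    Continuous (fun s : ℝ × (κ → ℝ) => P s.1 s.2))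

/-- DFL: linearity (uses GLI, GDV). Everything is the linearity of `deriv` and `fderiv` for
differentiable functions, and of `v ↦ fderiv ℝ (P ψ) z v` (`vf (F + F') z = vf F z + vf F' z`). The
last one: `dv F P ∈ GE (d + 2e) ≤ GE d`. -/
def DflStmt : Prop := ∀ (κ : Type) [Fintype κ] (M M' : Type) [NormedAddCommGroup M]
  [NormedSpace ℝ M] [NormedAddCommGroup M'] [NormedSpace ℝ M'] (T : M →L[ℝ] M') (d d' : ℕ)
  (P P' : ℝ → (κ → ℝ) → M) (ω : ℝ) (F F' : κ → MvPolynomial κ ℝ),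
  P ∈ GE κ M d → P' ∈ GE κ M d' →
  dp (P + P') = dp P + dp P' ∧ dv F (P + P') = dv F P + dv F P' ∧
  DF ω F (P + P') = DF ω F P + DF ω F P' ∧ dv (F + F') P = dv F P + dv F' P ∧
  DF ω (F + F') P = DF ω F P + dv F' P ∧
  (dp (fun ψ z => T (P ψ z)) = fun ψ z => T (dp P ψ z)) ∧
  (dv F (fun ψ z => T (P ψ z)) = fun ψ z => T (dv F P ψ z)) ∧
  (DF ω F (fun ψ z => T (P ψ z)) = fun ψ z => T (DF ω F P ψ z)) ∧
  ∀ e : ℕ, (∀ i, F i ∈ GP κ (2 * e + 1)) → DF ω F P ∈ GE κ M d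

/-- CHA: the chain rule (no hypotheses). On generators (product rule; the derivative of
`eval (z t) f` is `Σ_i z_i' eval (z t) (pderiv i f)`), with the formulas for `dp` and `dv` of a
generator; additivity of both sides (prove the differentiability in the same induction). Or: prove
that `(ψ, z) ↦ P ψ z` is differentiable on `ℝ × (κ → ℝ)` and use the partial derivatives. -/
def ChaStmt : Prop := ∀ (κ : Type) [Fintype κ] (M : Type) [NormedAddCommGroup M]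
  [NormedSpace ℝ M] (d : ℕ) (P : ℝ → (κ → ℝ) → M) (ω : ℝ) (F : κ → MvPolynomial κ ℝ)
  (ψ : ℝ → ℝ) (z : ℝ → κ → ℝ) (t : ℝ), P ∈ GE κ M d → HasDerivAt ψ ω t →
  HasDerivAt z (vf F (z t)) t →
  HasDerivAt (fun s => P (ψ s) (z s)) (DF ω F P (ψ t) (z t)) t

/-- GBD: bounds (no hypotheses). `|eval z f| ≤ (Σ |coefficients|) ‖z‖^d` for `f` homogeneous of
degree `d`, `‖z‖` the sup norm; `‖z‖^(d + 2k) ≤ ‖z‖^d` for `‖z‖ ≤ 1`. -/
def GbdStmt : Prop := ∀ (κ : Type) [Fintype κ] (M : Type) [NormedAddCommGroup M]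
  [NormedSpace ℝ M] (d : ℕ) (P : ℝ → (κ → ℝ) → M), P ∈ GE κ M d →
  ∃ C : ℝ, 0 ≤ C ∧ ∀ ψ z, ‖z‖ ≤ 1 → ‖P ψ z‖ ≤ C * ‖z‖ ^ d

/-- GPW: powers (uses GPR, GLI). Induction on `n` with GPR, `β = ContinuousLinearMap.mul ℝ X`; the
constant function `1` is in `HG 0` (`f = 1`, `j = 0`). Difference: `x^(n+1) - y^(n+1) =
x (x^n - y^n) + (x - y) y^n`, in `GE (d + n)` by induction. -/
def GpwStmt : Prop := ∀ (κ : Type) [Fintype κ] (X : Type) [NormedCommRing X]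
  [NormedAlgebra ℝ X] (d n : ℕ) (P P' : ℝ → (κ → ℝ) → X),
  (P ∈ HG κ X 1 → (fun ψ z => P ψ z ^ n) ∈ HG κ X n) ∧
  (P ∈ GE κ X 1 → (fun ψ z => P ψ z ^ n) ∈ GE κ X n) ∧
  (P ∈ GE κ X 1 → P' ∈ GE κ X 1 → P - P' ∈ GE κ X d →
    (fun ψ z => P ψ z ^ (n + 1) - P' ψ z ^ (n + 1)) ∈ GE κ X (d + n))

/-! ## Part S: the approximate solution -/

/-- QPW: the linear wave (no hypotheses). `MvPolynomial.X (Sum.inl i)` is homogeneous of degree 1,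
`j = 1`. `z ↦ qw φ ψ z` and `z ↦ pw φ ψ z` are linear and continuous (finite dimension), equal to
their derivatives. The last line: `cos² + sin² = 1` and orthonormality. -/
def QpwStmt : Prop := ∀ (H : Type) [NormedAddCommGroup H] [InnerProductSpace ℝ H] (m : ℕ)
  (φ : Fin m → H) (F : Fin m ⊕ Fin m → MvPolynomial (Fin m ⊕ Fin m) ℝ),
  qw φ ∈ HG (Fin m ⊕ Fin m) H 1 ∧ pw φ ∈ HG (Fin m ⊕ Fin m) H 1 ∧
  dp (qw φ) = pw φ ∧ dp (pw φ) = - qw φ ∧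
  (∀ ψ z, dv F (qw φ) ψ z = qw φ ψ (vf F z)) ∧ (∀ ψ z, dv F (pw φ) ψ z = pw φ ψ (vf F z)) ∧
  (Orthonormal ℝ φ → ∀ ψ z, ‖qw φ ψ z‖ ^ 2 + ‖pw φ ψ z‖ ^ 2 = ∑ i, z i ^ 2)

/-- REZ: the equation in degree `2e+1` (no hypotheses). Induction on `R` in the span: the conclusion
is additive (add `F'` and `q`; `dp (q1 + q2) = dp q1 + dp q2` because elements of `HG` are
differentiable in `ψ`; the integrals add because `R`, `pw` are continuous in `ψ`). Generator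
`R = (f(z) cos(jψ)) h`, `j + 2i = 2e+1` so `j` is odd. `j ≥ 3`: `F' = 0`, `q = - (f cos(jψ)) q_j` with
`q_j - j² ω² S q_j = h`, and `∫ cos(jψ) cos ψ = ∫ cos(jψ) sin ψ = 0`. `j = 1`: `h' = h - Σ ⟨h, φ_i⟩ φ_i`
is orthogonal to the `φ_i`, `q = - (f cos ψ) q_1`, `q_1 - ω² S q_1 = h'`; `F'_(inr i) = - ⟨h, φ_i⟩
f / (2ω)`, `F'_(inl i) = 0`; both sides of the identity are `- π f Σ z_(inr i) ⟨h, φ_i⟩`. For `sin ψ`:
`F'_(inl i) = ⟨h, φ_i⟩ f / (2ω)`, `F'_(inr i) = 0`, both sides are `π f Σ z_(inl i) ⟨h, φ_i⟩`. -/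
def RezStmt : Prop := ∀ (H : Type) [NormedAddCommGroup H] [InnerProductSpace ℝ H] (m e : ℕ)
  (S : H →L[ℝ] H) (ω : ℝ) (φ : Fin m → H) (R : ℝ → (Fin m ⊕ Fin m → ℝ) → H), 0 < ω →
  Orthonormal ℝ φ → Slm S ω φ (2 * e + 1) → R ∈ HG (Fin m ⊕ Fin m) H (2 * e + 1) →
  ∃ (F' : Fin m ⊕ Fin m → MvPolynomial (Fin m ⊕ Fin m) ℝ) (q : ℝ → (Fin m ⊕ Fin m → ℝ) → H),
    (∀ i, (F' i).IsHomogeneous (2 * e + 1)) ∧ q ∈ HG (Fin m ⊕ Fin m) H (2 * e + 1) ∧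
    (∀ ψ z, (2 * ω) • pw φ ψ (vf F' z) + (ω ^ 2) • S (dp (dp q) ψ z) + q ψ z = - R ψ z) ∧
    ∀ z, 2 * ω * Real.pi * ∑ i, z i * vf F' z i =
      - ∫ ψ in (0 : ℝ)..(2 * Real.pi), ⟪R ψ z, pw φ ψ z⟫_ℝ

/-- BAZ: the approximation of degree 1 (uses GLI, GDV, DFL, QPW, GPW). `F = 0`, so `DF ω 0 P =
ω ∂_ψ P` (`vf 0 z = 0`). `P = SX (ω² qw)`, `D P = SX (ω³ pw)`, `D D P = - SX (ω⁴ qw)`, `e (D D P) =
- ω⁴ S qw = - ω² qw` (`ω² S φ_i = φ_i`), so `e (D D P) + q = 0` and `R = a0 e((D P)^(2p+1))`. -/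
def BazStmt : Prop := ∀ (X Y H : Type) [NormedCommRing X] [NormedAlgebra ℝ X]
  [NormedAddCommGroup Y] [NormedSpace ℝ Y] [NormedAddCommGroup H] [InnerProductSpace ℝ H]
  (A : Alg X Y H) (W : Wv A) (m p : ℕ) (a0 ω : ℝ) (φ : Fin m → H), Evc W ω φ →
  ∃ R ∈ HG (Fin m ⊕ Fin m) H (2 * p + 1),
    Apz W p a0 ω φ (2 * p + 1) 0 (fun ψ z => W.SX ((ω ^ 2) • qw φ ψ z))
      (fun ψ z => (ω ^ 2) • qw φ ψ z) R ∧
    ∀ ψ z, R ψ z = a0 • A.e (W.SX ((ω ^ 3) • pw φ ψ z) ^ (2 * p + 1))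

/-- STZ: from one degree to the next (uses GPR, GLI, GDV, DFL, GPW, QPW, REZ). Put `d = 2e+1`. Take
`F'`, `q_d` from REZ for `R1`; `q⁺ = q + q_d`, `P_d = SX q_d`, `P⁺ = P + P_d = SX q⁺`, `F⁺ = F + F'`,
`D = DF ω F`, `D⁺ = DF ω F⁺`. `F' ∈ GP (2e+1) ≤ GP (2p+1)`. Write `≡` modulo `GE (d+2)`; note that
`dv F`, `dv F⁺` raise the degree by `2p ≥ 2` and `dv F'` by `2e = d - 1`.
`D⁺ P⁺ = D P + dv F' P + D⁺ P_d`; `D⁺ D⁺ P⁺ = D D P + dv F' (D P) + D⁺ (dv F' P) + D⁺ D⁺ P_d`.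
`P = P_1 + P~`, `P_1 = SX (ω² qw) ∈ GE 1`, `P~ = SX q' ∈ GE 3`. `D P = ω dp P_1 + (GE 3)`, so
`dv F' (D P) ≡ ω dv F' (dp P_1)`, and `e dv F' (dp P_1) (ψ, z) = e SX (ω² pw φ ψ (F' z)) =
pw φ ψ (F' z)` (QPW, `e SX = S`, `ω² S φ_i = φ_i`). `dv F' P ∈ GE d`, `D⁺ (dv F' P) ≡
ω dp (dv F' P) ≡ ω dp (dv F' P_1)`, and `e dp (dv F' P_1)(ψ, z) = pw φ ψ (F' z)` (dp of
`ψ ↦ qw φ ψ (F' z)`). `D⁺ D⁺ P_d ≡ ω² dp dp P_d`, `e dp dp P_d = S dp dp q_d`. Nonlinear term: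
`D⁺ P⁺ - D P = dv F' P + D⁺ P_d ∈ GE d`, `D P, D⁺ P⁺ ∈ GE 1`, so the difference of the powers is in
`GE (d + 2p)` (GPW). Sum: residual⁺ `≡ R1 + R2 + 2ω pw φ ψ (F' z) + ω² S dp dp q_d + q_d = R2 ≡ 0`. -/
def StzStmt : Prop := ∀ (X Y H : Type) [NormedCommRing X] [NormedAlgebra ℝ X]
  [NormedAddCommGroup Y] [NormedSpace ℝ Y] [NormedAddCommGroup H] [InnerProductSpace ℝ H]
  (A : Alg X Y H) (W : Wv A) (m p e : ℕ) (a0 ω : ℝ) (φ : Fin m → H)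
  (F : Fin m ⊕ Fin m → MvPolynomial (Fin m ⊕ Fin m) ℝ) (P : ℝ → (Fin m ⊕ Fin m → ℝ) → X)
  (q R1 R2 : ℝ → (Fin m ⊕ Fin m → ℝ) → H), 1 ≤ p → p ≤ e → 0 < ω → Evc W ω φ →
  Slm W.S ω φ (2 * e + 1) → R1 ∈ HG (Fin m ⊕ Fin m) H (2 * e + 1) →
  R2 ∈ GE (Fin m ⊕ Fin m) H (2 * e + 3) → Apz W p a0 ω φ (2 * e + 1) F P q (R1 + R2) →
  ∃ (F' : Fin m ⊕ Fin m → MvPolynomial (Fin m ⊕ Fin m) ℝ) (P' : ℝ → (Fin m ⊕ Fin m → ℝ) → X)
    (q' R' : ℝ → (Fin m ⊕ Fin m → ℝ) → H), (∀ i, (F' i).IsHomogeneous (2 * e + 1)) ∧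
    Apz W p a0 ω φ (2 * e + 3) (F + F') P' q' R' ∧
    ∀ z, 2 * ω * Real.pi * ∑ i, z i * vf F' z i =
      - ∫ ψ in (0 : ℝ)..(2 * Real.pi), ⟪R1 ψ z, pw φ ψ z⟫_ℝ

/-- APZ: approximations of all degrees (uses GLI, BAZ, STZ). Induction on `N`. `N = 0`: STZ with
`e = p`, `R1` from BAZ, `R2 = 0`, `F2 = 0`. Step: STZ with `e = p + N + 1`, `R = R1 + R2` by GLI, `F'`
is added to `F2`. `Slm` is monotone in `M`. -/
def ApzStmt : Prop := ∀ (X Y H : Type) [NormedCommRing X] [NormedAlgebra ℝ X]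
  [NormedAddCommGroup Y] [NormedSpace ℝ Y] [NormedAddCommGroup H] [InnerProductSpace ℝ H]
  (A : Alg X Y H) (W : Wv A) (m p N : ℕ) (a0 ω : ℝ) (φ : Fin m → H), 1 ≤ p → 0 < ω →
  Evc W ω φ → Slm W.S ω φ (2 * (p + N) + 1) →
  ∃ (F1 F2 : Fin m ⊕ Fin m → MvPolynomial (Fin m ⊕ Fin m) ℝ)
    (P : ℝ → (Fin m ⊕ Fin m → ℝ) → X) (q R : ℝ → (Fin m ⊕ Fin m → ℝ) → H),
    (∀ i, (F1 i).IsHomogeneous (2 * p + 1)) ∧ (∀ i, F2 i ∈ GP (Fin m ⊕ Fin m) (2 * p + 3)) ∧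
    Apz W p a0 ω φ (2 * (p + N) + 3) (F1 + F2) P q R ∧
    ∀ z, 2 * ω * Real.pi * ∑ i, z i * vf F1 z i = - ∫ ψ in (0 : ℝ)..(2 * Real.pi),
      ⟪a0 • A.e (W.SX ((ω ^ 3) • pw φ ψ z) ^ (2 * p + 1)), pw φ ψ z⟫_ℝ

/-- NEZ: the damping is strictly negative (uses QPW). `x = SX (ω³ pw φ ψ z)`, `e x = ω pw φ ψ z`. The
integrand is continuous in `(ψ, z)`, `≥ 0` (it is `⟨e x^(2p+1), e x⟩ / ω`, or `0` if `e x = 0`),
and for `z ≠ 0` positive for `ψ = 0` or `ψ = π/2` (`pw φ 0 z = Σ y_i φ_i`, `pw φ (π/2) z =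
- Σ x_i φ_i`), `intervalIntegral.integral_pos`. The integral is homogeneous of degree `2p+2` in `z`
and continuous, so its minimum `c` on the compact set `Σ z_i² = 1` is positive (if this set is empty
then `m = 0` and both sides vanish). -/
def NezStmt : Prop := ∀ (X Y H : Type) [NormedCommRing X] [NormedAlgebra ℝ X]
  [NormedAddCommGroup Y] [NormedSpace ℝ Y] [NormedAddCommGroup H] [InnerProductSpace ℝ H]
  (A : Alg X Y H) (W : Wv A) (m p : ℕ) (ω : ℝ) (φ : Fin m → H), 1 ≤ p → 0 < ω → Evc W ω φ →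
  Psv A p → ∃ c > 0, ∀ z : Fin m ⊕ Fin m → ℝ, c * (∑ i, z i ^ 2) ^ (p + 1) ≤
    ∫ ψ in (0 : ℝ)..(2 * Real.pi),
      ⟪A.e (W.SX ((ω ^ 3) • pw φ ψ z) ^ (2 * p + 1)), pw φ ψ z⟫_ℝ

/-! ## Part T: the trajectory -/

/-- GLO: global solutions for a bounded Lipschitz vector field (no hypotheses). For each `T > 0` the
theorem of Picard and Lindelöf on `[-T, T]` in the ball of radius `L T` about `x0` (`IsPicardLindelof`
needs only: Lipschitz on the ball, bounded by `L`, `L T ≤ radius`) gives a solution `z_T`; by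
uniqueness (`ODE_solution_unique_of_mem_Ioo` or Gronwall) `z_T = z_T'` on `(-T, T)` for `T ≤ T'`;
`z(t) = z_(|t|+1)(t)`. -/
def GloStmt : Prop := ∀ (E : Type) [NormedAddCommGroup E] [NormedSpace ℝ E] [CompleteSpace E]
  (G : E → E) (K : ℝ≥0) (L : ℝ) (x0 : E), LipschitzWith K G → (∀ x, ‖G x‖ ≤ L) →
  ∃ z : ℝ → E, z 0 = x0 ∧ ∀ t, HasDerivAt z (G (z t)) t

/-- TRU: truncation (no hypotheses). `G z = vf F (fun i => max (-1) (min 1 (z i)))`; the truncation is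
1-Lipschitz for the sup norm with values in the closed unit ball, which is compact and convex, and
`vf F` is of class `C^1` (`MvPolynomial` evaluations are smooth), so it is Lipschitz and bounded on
the closed unit ball. -/
def TruStmt : Prop := ∀ (κ : Type) [Fintype κ] (F : κ → MvPolynomial κ ℝ),
  ∃ (G : (κ → ℝ) → κ → ℝ) (K : ℝ≥0) (L : ℝ), LipschitzWith K G ∧ (∀ z, ‖G z‖ ≤ L) ∧
    ∀ z, ‖z‖ ≤ 1 → G z = vf F z

/-- TRZ: the trajectory (uses GLO, TRU). Put `s = Σ z_i²`, `‖z‖² ≤ s`. For `‖z‖ ≤ 1`: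
`|Σ z_i F2_i(z)| ≤ C ‖z‖^(2p+4) ≤ C s^(p+2)` and `|Σ z_i F1_i(z)| ≤ C s^(p+1)` (bounds for homogeneous
polynomials). Choose `0 < r ≤ 1` with `C r ≤ c/2`. `G` from TRU for `F1 + F2`, `z` from GLO with
`z 0 ≠ 0`, `s(0) = r/2` (one coordinate different from `0`). While `s ≤ r`: `s' = 2 Σ z_i F_i(z) ∈
[- 2(c + C) s^(p+1) - …, - c s^(p+1)]`, so `s` is nonincreasing and never leaves `[0, r]` for `t ≥ 0`
(if `s(t) > r` for some `t > 0`, at the last time before `t` with `s = r` ...; or `s (s - r)_+`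
arguments), and `s > 0` (uniqueness, or `s' ≥ - C'' s`). `(s^(-p))' = - p s^(-p-1) s' ≥ p c` and
`≤ p C''`. So `s^(-p) ≥ p c t`, i.e. `t s^p ≤ 1/(p c)`, and `s^(-p) ≤ s(0)^(-p) + p C'' t`. With
`t1 = 1`. (The constant `2/(p c)` leaves room: any bound `≤ 2/(p c)` for large `t` is enough.) -/
def TrzStmt : Prop := ∀ (κ : Type) [Fintype κ] [Nonempty κ] (p : ℕ) (c : ℝ)
  (F1 F2 : κ → MvPolynomial κ ℝ), 1 ≤ p → 0 < c → (∀ i, (F1 i).IsHomogeneous (2 * p + 1)) →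
  (∀ i, F2 i ∈ GP κ (2 * p + 3)) →
  (∀ z : κ → ℝ, ∑ i, z i * vf F1 z i ≤ - (c * (∑ i, z i ^ 2) ^ (p + 1))) →
  ∃ (t1 c' : ℝ) (z : ℝ → κ → ℝ), 1 ≤ t1 ∧ 0 < c' ∧ ∀ t > t1,
    HasDerivAt z (vf (F1 + F2) (z t)) t ∧ ‖z t‖ ≤ 1 ∧
    c' ≤ t * (∑ i, z t i ^ 2) ^ p ∧ t * (∑ i, z t i ^ 2) ^ p ≤ 2 / (p * c)

/-! ## Part U: the approximate solution as a function of time -/

/-- GSM: the size of the derivative of the power map (no hypotheses). `n = 2p+1`, `n - 3 = 2p - 2`;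
`‖x^k y‖ ≤ ‖x‖^k ‖y‖` for all `k` (for `k = 0`: `x^0 y = y`), so `gsz ≤ (n + 2n(n-1) + n(n-1) +
n(n-1)(n-2)) s^(2p) = n³ s^(2p)`. -/
def GsmStmt : Prop := ∀ (X : Type) [NormedCommRing X] [NormedAlgebra ℝ X] (p : ℕ) (s : ℝ)
  (w0 w1 w2 : X), 1 ≤ p → ‖w0‖ + ‖w1‖ + ‖w2‖ ≤ s →
  gsz (2 * p + 1) w0 w1 w2 ≤ (2 * p + 1) ^ 3 * s ^ (2 * p)

/-- LDX: bounds of the approximate solution, the leading constant does not depend on the degree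
(uses GLI, GDV, DFL, GBD, QPW). `P = SX (ω² qw) + SX q'`, `SX q' ∈ GE 3`; `D P = SX (ω³ pw) +
dv F (SX (ω² qw)) + D (SX q') = SX (ω³ pw) + (GE 3)` (`dv F` raises the degree by `2p ≥ 2`), `D D P =
- SX (ω⁴ qw) + (GE 3)`, `D D D P = - SX (ω⁵ pw) + (GE 3)`; `‖qw‖, ‖pw‖ ≤ 2 m max ‖φ_i‖ ‖z‖`; GBD for
the terms in `GE 3`, `‖z‖³ ≤ ‖z‖²`. -/
def LdxStmt : Prop := ∀ (X Y H : Type) [NormedCommRing X] [NormedAlgebra ℝ X]
  [NormedAddCommGroup Y] [NormedSpace ℝ Y] [NormedAddCommGroup H] [InnerProductSpace ℝ H]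
  (A : Alg X Y H) (W : Wv A) (m p : ℕ) (ω : ℝ) (φ : Fin m → H), 1 ≤ p → 0 < ω →
  Evc W ω φ → ∃ B : ℝ, 0 ≤ B ∧ ∀ (a0 : ℝ) (d : ℕ)
  (F : Fin m ⊕ Fin m → MvPolynomial (Fin m ⊕ Fin m) ℝ) (P : ℝ → (Fin m ⊕ Fin m → ℝ) → X)
  (q R : ℝ → (Fin m ⊕ Fin m → ℝ) → H), Apz W p a0 ω φ d F P q R →
  ∃ C : ℝ, 0 ≤ C ∧ ∀ ψ z, ‖z‖ ≤ 1 → ‖DF ω F P ψ z‖ + ‖DF ω F (DF ω F P) ψ z‖ +
    ‖DF ω F (DF ω F (DF ω F P)) ψ z‖ ≤ B * ‖z‖ + C * ‖z‖ ^ 2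

/-- LDE: the energy of the approximate solution (uses GLI, GDV, DFL, GBD, QPW). `e (D P) = ω pw +
(GE 3)`, `R q = ω² R qw + (GE 3)`, `‖ω² R qw‖² = ω⁴ ⟨qw, S qw⟩ = ω² ‖qw‖²` (`R R = S`, `R` symmetric,
`ω² S qw = qw`), and `‖pw‖² + ‖qw‖² = s := Σ z_i²`. Errors `≤ C ‖z‖³ ≤ C ‖z‖ s`, `‖ω pw‖, ‖ω² R qw‖ ≤
ω s^(1/2)`, so the energy differs from `ω² s` by at most `C' ‖z‖ s` for `‖z‖ ≤ 1`. -/
def LdeStmt : Prop := ∀ (X Y H : Type) [NormedCommRing X] [NormedAlgebra ℝ X]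
  [NormedAddCommGroup Y] [NormedSpace ℝ Y] [NormedAddCommGroup H] [InnerProductSpace ℝ H]
  (A : Alg X Y H) (W : Wv A) (m p : ℕ) (a0 ω : ℝ) (φ : Fin m → H) (d : ℕ)
  (F : Fin m ⊕ Fin m → MvPolynomial (Fin m ⊕ Fin m) ℝ) (P : ℝ → (Fin m ⊕ Fin m → ℝ) → X)
  (q R : ℝ → (Fin m ⊕ Fin m → ℝ) → H), 1 ≤ p → 0 < ω → Evc W ω φ →
  Apz W p a0 ω φ d F P q R →
  ∃ δ : ℝ, 0 < δ ∧ ∀ ψ z, ‖z‖ ≤ δ →
    ω ^ 2 / 2 * ∑ i, z i ^ 2 ≤ ‖A.e (DF ω F P ψ z)‖ ^ 2 + ‖W.R (q ψ z)‖ ^ 2 ∧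
    ‖A.e (DF ω F P ψ z)‖ ^ 2 + ‖W.R (q ψ z)‖ ^ 2 ≤ 2 * ω ^ 2 * ∑ i, z i ^ 2

/-- ASZ: assembly (uses GLI, GDV, DFL, CHA, GBD, APZ, NEZ, TRZ, GSM, LDX, LDE). `B` from LDX, `c` from
NEZ; then for `F1` of APZ: `Σ z_i F1_i(z) ≤ - c0 s^(p+1)`, `c0 = a0 c/(2ωπ)`. Put `c1 = a0 (2p+1)³
(B+1)^(2p) 2/(p c0)` and choose `N` with `k := d/(2p) > max(2, c1 + 1)`, `d = 2(p+N)+3`; `M =
2(p+N)+1`. Given `Slm`: `F1, F2, P, q, R` from APZ, `F = F1 + F2`, `C` from LDX, `δ` from LDE, `z` from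
TRZ. As `‖z‖^(2p) ≤ s^p ≤ (2/(p c0))/t → 0` there is `t1` such that `‖z t‖ ≤ min(δ, 1/(C+1))` for
`t > t1`. `ψ t = ω t`. `w0 = D P`, `w1 = D D P`, `w2 = D D D P` along `(ψ t, z t)` (CHA), sum of norms
`≤ (B+1) ‖z‖`; `a0 gsz ≤ a0 (2p+1)³ (B+1)^(2p) s^p ≤ c1/t`. `h = D q` (`D (SX q) = SX (D q)`),
`g = q`, `S g = e P`. `r = (R, D R, D D R)`, in `GE d`, `≤ C ‖z‖^d ≤ C (s^p)^(d/(2p)) ≤ N1 t^(-k)`.
Energy: LDE and `(c'/t)^(1/p) ≤ s ≤ ((2/(p c0))/t)^(1/p)`. Continuity of `w2`, `g`, `r 2`: `z` is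
continuous (differentiable) and the last property of GDV. -/
def AszStmt : Prop := ∀ (X Y H : Type) [NormedCommRing X] [NormedAlgebra ℝ X]
  [NormedAddCommGroup Y] [NormedSpace ℝ Y] [NormedAddCommGroup H] [InnerProductSpace ℝ H]
  (A : Alg X Y H) (W : Wv A) (m p : ℕ) (a0 ω : ℝ) (φ : Fin m → H), 1 ≤ m → 1 ≤ p → 0 < a0 →
  0 < ω → Evc W ω φ → Psv A p → ∃ M : ℕ, Slm W.S ω φ M → Apt W p a0

/-! ## Part V: the solution -/

/-- TIM: from the approximate solution to the solution (uses `LiaStmt LibStmt LicStmt NlpStmt` of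
squad BE01, as hypotheses in this order). Copy `Pool/Agent/Helper91_BE01/ABS.lean`: the only change is
that the exponent `K + 1 + 1/(2p)` is replaced by `k > 2` (in `hpow`: `2(1 - k) ≤ - 1 - 1/p` because
`k > 2` and `p ≥ 1`). -/
def TimStmt : Prop := ∀ (X Y H : Type) [NormedCommRing X] [NormedAlgebra ℝ X]
  [CompleteSpace X] [NormedAddCommGroup Y] [NormedSpace ℝ Y] [CompleteSpace Y]
  [NormedAddCommGroup H] [InnerProductSpace ℝ H] [CompleteSpace H] (A : Alg X Y H) (W : Wv A)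
  (p : ℕ) (a0 : ℝ), 1 ≤ p → 0 < a0 → Apt W p a0 → Slt W p a0

/-- FRM: the eigenspace and the Fredholm alternative (no hypotheses). Compare
`Pool/Agent/Helper69_BE01/Fre.lean` (module FRE of squad BE01). `E = {u | u = l S u}` is a closed
subspace and `l S` is the identity on it, so its closed unit ball is compact and `E` is finite
dimensional (`FiniteDimensional.of_isCompact_closedBall`); `φ` = an orthonormal basis
(`stdOrthonormalBasis`). For `F` orthogonal to `E`: `l S` maps the orthogonal complement of `E` to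
itself (`S` symmetric), is compact there, and has no fixed vector `≠ 0`, so `1 - l S` is onto there
(Fredholm alternative, as in Fre.lean). -/
def FrmStmt : Prop := ∀ (H : Type) [NormedAddCommGroup H] [InnerProductSpace ℝ H]
  [CompleteSpace H] (S : H →L[ℝ] H) (l : ℝ), IsCompactOperator S →
  (∀ h k, ⟪S h, k⟫_ℝ = ⟪h, S k⟫_ℝ) →
  ∃ (m : ℕ) (φ : Fin m → H), Orthonormal ℝ φ ∧ (∀ i, l • S (φ i) = φ i) ∧
    (∀ u, u = l • S u → u ∈ Submodule.span ℝ (Set.range φ)) ∧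
    ∀ F : H, (∀ i, ⟪F, φ i⟫_ℝ = 0) → ∃ q : H, q - l • S q = F

/-- FNZ: the theorem (uses FRM, ASZ, TIM and, imported, `Pool.Agent.Helper70BE01All.wvc2`,
`Pool.Agent.BE01.H69.fre`). Adapt `Pool/Agent/Helper70_BE01/Fnl2.lean`: `A, W, Z` from `wvc2`, `l > 0`,
`ω = √l`, `φ i` from FRM with `l = ω²` (`m ≥ 1` because the eigenvector is in the span), `Psv A p`:
`⟨e x^(2p+1), e x⟩ = ∫ (e x)^(2p+2)` (as `hγ` there), `M` from ASZ; `Slm`: FRM and `fre`. Then `Apt`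
(ASZ), `Slt` (TIM), and the end of Fnl2.lean. -/
def FnzStmt : Prop := ∀ (d : ℕ) (Ω : Set (En d)) (p : ℕ) (a l : ℝ) (φ : Lp ℝ 2 (mu Ω)),
  (d = 2 ∨ d = 3) → Dom Ω → 1 ≤ p → 0 < a → φ ≠ 0 → IsEig Ω l φ →
  ∃ M : ℕ, (∀ n : ℕ, Odd n → 3 ≤ n → n ≤ M → ∀ u, IsEig Ω ((n : ℝ) ^ 2 * l) u → u = 0) →
    ∃ (u v w : ℝ → Lp ℝ 2 (mu Ω)) (G : ℝ → Lp (En d) 2 (mu Ω)),
      IsSol Ω a ((2 * p : ℕ) : ℝ) u v w G ∧
      ∃ c C : ℝ, 0 < c ∧ ∀ t, 0 ≤ t →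
        c * (1 + t) ^ (-(2 / ((2 * p : ℕ) : ℝ))) ≤ energy Ω v G t ∧
        energy Ω v G t ≤ C * (1 + t) ^ (-(2 / ((2 * p : ℕ) : ℝ)))

/-- FNF: finitely many resonances (uses FNZ). Let `n0` be the largest odd `n` such that `n² l` is an
eigenvalue (`n = 1` is one) and apply FNZ to `n0² l`: for odd `n ≥ 3`, `n² n0² l = (n n0)² l` is not
an eigenvalue, because `n n0` is odd and `> n0`. -/
def FnfStmt : Prop := ∀ (d : ℕ) (Ω : Set (En d)) (p : ℕ) (a l : ℝ) (φ : Lp ℝ 2 (mu Ω)),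
  (d = 2 ∨ d = 3) → Dom Ω → 1 ≤ p → 0 < a → φ ≠ 0 → IsEig Ω l φ →
  {n : ℕ | Odd n ∧ ∃ u : Lp ℝ 2 (mu Ω), u ≠ 0 ∧ IsEig Ω ((n : ℝ) ^ 2 * l) u}.Finite →
    ∃ (u v w : ℝ → Lp ℝ 2 (mu Ω)) (G : ℝ → Lp (En d) 2 (mu Ω)),
      IsSol Ω a ((2 * p : ℕ) : ℝ) u v w G ∧
      ∃ c C : ℝ, 0 < c ∧ ∀ t, 0 ≤ t →
        c * (1 + t) ^ (-(2 / ((2 * p : ℕ) : ℝ))) ≤ energy Ω v G t ∧
        energy Ω v G t ≤ C * (1 + t) ^ (-(2 / ((2 * p : ℕ) : ℝ)))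

end

end Pool.Agent.BEF
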